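import Pool.Agent.H447R2.MZ.Tup

/-!
# Asymptotic directness of the sum of the weight spaces of multiple zeta values
-/

set_option autoImplicit false

namespace Pool.Agent.J4.H88.DZ

open Pool.Agent.H447R2.MZ Module Filter Polynomial

/-! ### the dimensions -/

lemma Zs_range (n : ℕ) : Zs n ≤ Submodule.span ℚ (Set.range fun c : Composition n => val c.blocks) := by
  rw [Zs_eq, Submodule.span_le]
  rintro _ ⟨s, hs, hn, rfl⟩
  exact Submodule.subset_span ⟨⟨s, fun {i} hi => hs.1 i hi, hn⟩, rfl⟩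

instance (n : ℕ) : FiniteDimensional ℚ (Submodule.span ℚ
    (Set.range fun c : Composition n => val c.blocks)) :=
  FiniteDimensional.span_of_finite ℚ (Set.finite_range _)

instance (n : ℕ) : FiniteDimensional ℚ (Zs n) :=
  Submodule.finiteDimensional_of_le (Zs_range n)

lemma finrank_Zs (n : ℕ) : finrank ℚ (Zs n) ≤ 2 ^ (n - 1) := by
  refine (Submodule.finrank_mono (Zs_range n)).trans ?_
  refine (finrank_range_le_card _).trans ?_
  rw [composition_card]

lemma pow_sum (p : ℕ) : ∑ j ∈ Finset.range (p + 1), 2 ^ (j - 1) = 2 ^ p := by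
  induction p with
  | zero => simp
  | succ p ih =>
    rw [Finset.sum_range_succ, ih, show p + 1 - 1 = p by omega, pow_succ]
    ring

/-- the sum of the dimensions of the `Z_j`, `j ∈ A` -/
noncomputable def SA (A : Finset ℕ) : ℕ := ∑ j ∈ A, finrank ℚ (Zs j)

/-- `dim Z_0 + … + dim Z_p` -/
noncomputable def S (p : ℕ) : ℕ := SA (Finset.range (p + 1))

lemma S_le (p : ℕ) : S p ≤ 2 ^ p := by
  rw [← pow_sum]
  unfold S SA
  exact Finset.sum_le_sum fun j _ => finrank_Zs j

/-! ### the external sum -/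

/-- the external sum of the spaces `Z_j`, `j ∈ A`, as a space of polynomials -/
noncomputable def W (A : Finset ℕ) : Submodule ℚ ℝ[X] where
  carrier := {f | ∀ j, f.coeff j ∈ Zs j ∧ (j ∉ A → f.coeff j = 0)}
  add_mem' := by
    intro f g hf hg j
    rw [coeff_add]
    exact ⟨Submodule.add_mem _ (hf j).1 (hg j).1, fun h => by rw [(hf j).2 h, (hg j).2 h, add_zero]⟩
  zero_mem' := fun j => by
    rw [coeff_zero]
    exact ⟨Submodule.zero_mem _, fun _ => rfl⟩
  smul_mem' := by
    intro c f hf j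
    rw [coeff_smul]
    exact ⟨Submodule.smul_mem _ _ (hf j).1, fun h => by rw [(hf j).2 h, smul_zero]⟩

lemma mono_mem {A : Finset ℕ} {j : ℕ} (hj : j ∈ A) {z : ℝ} (hz : z ∈ Zs j) :
    monomial j z ∈ W A := by
  intro i
  rw [coeff_monomial]
  split_ifs with h
  · subst h
    exact ⟨hz, fun h => absurd hj h⟩
  · exact ⟨Submodule.zero_mem _, fun _ => rfl⟩

/-- the coefficients -/
noncomputable def cf (A : Finset ℕ) : W A →ₗ[ℚ] (∀ j : A, Zs j) where
  toFun f := fun j => ⟨f.1.coeff j, (f.2 j).1⟩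
  map_add' f g := by
    funext j
    exact Subtype.ext (coeff_add _ _ _)
  map_smul' c f := by
    funext j
    exact Subtype.ext (coeff_smul _ _ _)

lemma cf_bij (A : Finset ℕ) : Function.Bijective (cf A) := by
  constructor
  · rw [injective_iff_map_eq_zero]
    intro f hf
    apply Subtype.ext
    ext j
    by_cases hj : j ∈ A
    · have h := congrFun hf ⟨j, hj⟩
      exact congrArg Subtype.val h
    · rw [(f.2 j).2 hj]
      simp
  · intro z
    refine ⟨⟨∑ j : A, monomial (j : ℕ) (z j : ℝ), Submodule.sum_mem _ fun j _ =>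
      mono_mem j.2 (z j).2⟩, ?_⟩
    funext i
    apply Subtype.ext
    change (∑ j : A, monomial (j : ℕ) (z j : ℝ)).coeff i = _
    rw [finsetSum_coeff, Finset.sum_eq_single i]
    · rw [coeff_monomial, if_pos rfl]
    · intro j _ hji
      rw [coeff_monomial, if_neg]
      intro h
      exact hji (Subtype.ext h)
    · intro h
      exact absurd (Finset.mem_univ i) h

noncomputable def cfe (A : Finset ℕ) : W A ≃ₗ[ℚ] (∀ j : A, Zs j) :=
  LinearEquiv.ofBijective (cf A) (cf_bij A)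

instance (A : Finset ℕ) : FiniteDimensional ℚ (W A) := Module.Finite.equiv (cfe A).symm

lemma finrank_W (A : Finset ℕ) : finrank ℚ (W A) = SA A := by
  rw [(cfe A).finrank_eq, Module.finrank_pi_fintype]
  unfold SA
  exact Finset.sum_coe_sort A fun j => finrank ℚ (Zs j)

/-- the evaluation -/
noncomputable def ev : ℝ[X] →ₗ[ℚ] ℝ := (Polynomial.leval (1 : ℝ)).restrictScalars ℚ

lemma ev_apply (f : ℝ[X]) : ev f = f.eval 1 := rfl

/-- the sum of the `Z_j`, `j ∈ A`, in `ℝ` -/
noncomputable def Sm (A : Finset ℕ) : Submodule ℚ ℝ := ⨆ j ∈ A, Zs j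

lemma le_Sm {A : Finset ℕ} {j : ℕ} (hj : j ∈ A) : Zs j ≤ Sm A :=
  le_iSup₂_of_le (f := fun j (_ : j ∈ A) => Zs j) j hj le_rfl

lemma ev_W {A : Finset ℕ} {f : ℝ[X]} (hf : f ∈ W A) : ev f = ∑ j ∈ A, f.coeff j := by
  rw [ev_apply, eval_eq_sum]
  unfold Polynomial.sum
  have h : f.support ⊆ A := by
    intro j hj
    by_contra h
    exact (mem_support_iff.1 hj) ((hf j).2 h)
  rw [← Finset.sum_subset h fun j _ hj => notMem_support_iff.1 hj]
  simp

lemma map_W (A : Finset ℕ) : (W A).map ev = Sm A := by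
  apply le_antisymm
  · rintro _ ⟨f, hf, rfl⟩
    rw [ev_W hf]
    exact Submodule.sum_mem _ fun j hj => le_Sm hj (hf j).1
  · refine iSup₂_le fun j hj z hz => ⟨monomial j z, mono_mem hj hz, ?_⟩
    rw [ev_apply, eval_monomial, one_pow, mul_one]

/-- the dimension of the sum of the `Z_j`, `j ∈ A` -/
noncomputable def sA (A : Finset ℕ) : ℕ := finrank ℚ (Sm A)

/-- `dim (Z_0 + … + Z_p)` -/
noncomputable def s (p : ℕ) : ℕ := sA (Finset.range (p + 1))

/-- the evaluation on the external sum -/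
noncomputable def evr (A : Finset ℕ) : W A →ₗ[ℚ] ℝ := ev.domRestrict (W A)

lemma rank (A : Finset ℕ) : sA A + finrank ℚ (LinearMap.ker (evr A)) = SA A := by
  have h := LinearMap.finrank_range_add_finrank_ker (evr A)
  have h1 : LinearMap.range (evr A) = Sm A := by
    unfold evr
    rw [LinearMap.range_domRestrict, map_W]
  rw [h1, finrank_W] at h
  exact h

/-- The sum of the spaces `Z_j`, `j ∈ F`, is direct. -/
def DirectOn (F : Finset ℕ) : Prop :=
  ∀ z : ℕ → ℝ, (∀ j ∈ F, z j ∈ Zs j) → (∑ j ∈ F, z j) = 0 → ∀ j ∈ F, z j = 0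

lemma exists_rel {F : Finset ℕ} (h : ¬ DirectOn F) : ∃ r ∈ W F, r ≠ 0 ∧ ev r = 0 := by
  unfold DirectOn at h
  push Not at h
  obtain ⟨z, hz, hs, j, hj, hj0⟩ := h
  set r : ℝ[X] := ∑ i ∈ F, monomial i (z i) with hr
  have hrW : r ∈ W F := Submodule.sum_mem _ fun i hi => mono_mem hi (hz i hi)
  have hc : ∀ i ∈ F, r.coeff i = z i := by
    intro i hi
    rw [hr, finsetSum_coeff, Finset.sum_eq_single i]
    · rw [coeff_monomial, if_pos rfl]
    · intro l _ hl
      rw [coeff_monomial, if_neg hl]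
    · intro h
      exact absurd hi h
  refine ⟨r, hrW, ?_, ?_⟩
  · intro h0
    have := hc j hj
    rw [h0, coeff_zero] at this
    exact hj0 this.symm
  · rw [ev_W hrW, ← hs]
    exact Finset.sum_congr rfl fun i hi => hc i hi

lemma mul_W {F A B : Finset ℕ} (hB : ∀ i ∈ F, ∀ a ∈ A, i + a ∈ B) {r f : ℝ[X]} (hr : r ∈ W F)
    (hf : f ∈ W A) : r * f ∈ W B := by
  intro j
  rw [coeff_mul]
  constructor
  · refine Submodule.sum_mem _ fun x hx => ?_
    have h := Finset.HasAntidiagonal.mem_antidiagonal.1 hx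
    have h1 := mul_mem x.1 x.2 _ _ (hr x.1).1 (hf x.2).1
    rwa [h] at h1
  · intro hj
    refine Finset.sum_eq_zero fun x hx => ?_
    have h := Finset.HasAntidiagonal.mem_antidiagonal.1 hx
    by_cases h1 : x.1 ∈ F
    · by_cases h2 : x.2 ∈ A
      · exact absurd (h ▸ hB _ h1 _ h2) hj
      · rw [(hf x.2).2 h2, mul_zero]
    · rw [(hr x.1).2 h1, zero_mul]

/-- **The gap.** -/
theorem gapF {F : Finset ℕ} (h : ¬ DirectOn F) {A B : Finset ℕ}
    (hB : ∀ i ∈ F, ∀ a ∈ A, i + a ∈ B) : sA B + SA A ≤ SA B := by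
  obtain ⟨r, hr, hr0, hr1⟩ := exists_rel h
  let M : W A →ₗ[ℚ] LinearMap.ker (evr B) :=
    { toFun := fun f => ⟨⟨r * f.1, mul_W hB hr f.2⟩, by
        rw [LinearMap.mem_ker]
        change ev (r * f.1) = 0
        rw [ev_apply, eval_mul]
        rw [ev_apply] at hr1
        rw [hr1, zero_mul]⟩
      map_add' := fun f g => Subtype.ext (Subtype.ext (mul_add _ _ _))
      map_smul' := fun c f => Subtype.ext (Subtype.ext (mul_smul_comm c r f.1)) }
  have hM : Function.Injective M := by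
    rw [injective_iff_map_eq_zero]
    intro f hf
    have h1 : r * f.1 = 0 := congrArg (fun x => x.1.1) hf
    exact Subtype.ext ((mul_eq_zero.1 h1).resolve_left hr0)
  have h1 := LinearMap.finrank_le_finrank_of_injective hM
  rw [finrank_W] at h1
  have h2 := rank B
  omega

/-- The sum of the spaces of weights at most `p` is direct. -/
def Direct (p : ℕ) : Prop := DirectOn (Finset.range (p + 1))

theorem gap {e : ℕ} (h : ¬ Direct e) (p : ℕ) : s (p + e) + S p ≤ S (p + e) := by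
  refine gapF h fun i hi a ha => ?_
  rw [Finset.mem_range] at *
  omega

lemma sA_eq {A : Finset ℕ} (h : DirectOn A) : sA A = SA A := by
  have h1 := rank A
  have h2 : LinearMap.ker (evr A) = ⊥ := by
    rw [Submodule.eq_bot_iff]
    intro f hf
    rw [LinearMap.mem_ker] at hf
    change ev f.1 = 0 at hf
    rw [ev_W f.2] at hf
    have h3 := h f.1.coeff (fun j _ => (f.2 j).1) hf
    apply Subtype.ext
    ext j
    by_cases hj : j ∈ A
    · rw [h3 j hj]
      rfl
    · rw [(f.2 j).2 hj]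
      rfl
  rw [h2, finrank_bot] at h1
  omega

lemma one_le : 1 ≤ finrank ℚ (Zs 0) := by
  refine Nat.one_le_iff_ne_zero.2 fun h0 => ?_
  have h2 : Zs 0 = ⊥ := Submodule.finrank_eq_zero.1 h0
  have h3 := one_mem
  rw [h2, Submodule.mem_bot] at h3
  exact one_ne_zero h3

lemma one_le_S (p : ℕ) : 1 ≤ S p :=
  one_le.trans (Finset.single_le_sum (f := fun j => finrank ℚ (Zs j)) (fun _ _ => Nat.zero_le _)
    (Finset.mem_range.2 (Nat.succ_pos p)))

open Pointwise in
/-- **Directness along `F` is decided by one set `A`.** -/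
theorem directOn_iff (F : Finset ℕ) :
    DirectOn F ↔ ∃ A : Finset ℕ, SA (A + F) < sA (A + F) + SA A := by
  constructor
  · intro h
    refine ⟨{0}, ?_⟩
    rw [Finset.singleton_add]
    have h1 : F.image (fun x => 0 + x) = F := by simp
    have h2 : SA {0} = finrank ℚ (Zs 0) := Finset.sum_singleton _ _
    have h3 : (0 : ℕ) +ᵥ F = F := by
      ext x
      simp
    rw [h3, sA_eq h, h2]
    have := one_le
    omega
  · rintro ⟨A, hA⟩
    by_contra h
    have := gapF h (A := A) (B := A + F) fun i hi a ha => by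
      rw [add_comm i a]
      exact Finset.add_mem_add ha hi
    omega

/-- growth: if `S p ≤ C λ ^ p` then `S p ≥ (λ ^ (-e) - ε) S (p + e)` infinitely often -/
lemma growth {l C δ : ℝ} (hl : 0 < l) (hS : ∀ p, (S p : ℝ) ≤ C * l ^ p) (e : ℕ)
    (hδ : δ < (l ^ e)⁻¹) (n : ℕ) : ∃ p, n ≤ p ∧ δ * S (p + e) ≤ S p := by
  by_contra hno
  push Not at hno
  have hle : 0 < l ^ e := pow_pos hl e
  have hδ0 : 0 < δ := by
    have h1 := hno n le_rfl
    have h2 : (0 : ℝ) ≤ S n := Nat.cast_nonneg _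
    have h3 : (0 : ℝ) < S (n + e) := by
      exact_mod_cast (lt_of_lt_of_le Nat.zero_lt_one (one_le_S _))
    by_contra h
    push Not at h
    have := mul_nonpos_of_nonpos_of_nonneg h h3.le
    linarith
  have h1 : ∀ k, (S n : ℝ) ≤ δ ^ k * S (n + k * e) := by
    intro k
    induction k with
    | zero => simp
    | succ k ih =>
      refine ih.trans ?_
      have h2 := (hno (n + k * e) (by omega)).le
      have h3 : n + k * e + e = n + (k + 1) * e := by ring
      rw [h3] at h2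
      calc δ ^ k * (S (n + k * e) : ℝ) ≤ δ ^ k * (δ * S (n + (k + 1) * e)) :=
            mul_le_mul_of_nonneg_left h2 (pow_nonneg hδ0.le k)
        _ = δ ^ (k + 1) * S (n + (k + 1) * e) := by ring
  set x : ℝ := δ * l ^ e with hx
  have hx0 : 0 ≤ x := by positivity
  have hx1 : x < 1 := by
    rw [hx]
    have := mul_lt_mul_of_pos_right hδ hle
    rwa [inv_mul_cancel₀ hle.ne'] at this
  have h4 : ∀ k, (1 : ℝ) ≤ C * l ^ n * x ^ k := by
    intro k
    have h5 : (1 : ℝ) ≤ S n := by exact_mod_cast one_le_S n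
    refine (h5.trans (h1 k)).trans ?_
    calc δ ^ k * (S (n + k * e) : ℝ) ≤ δ ^ k * (C * l ^ (n + k * e)) :=
          mul_le_mul_of_nonneg_left (hS _) (pow_nonneg hδ0.le k)
      _ = C * l ^ n * x ^ k := by
          rw [hx, mul_pow, ← pow_mul, pow_add, mul_comm e k]
          ring
  have h5 : Tendsto (fun k => C * l ^ n * x ^ k) atTop (nhds (C * l ^ n * 0)) :=
    (tendsto_pow_atTop_nhds_zero_of_lt_one hx0 hx1).const_mul _
  have h6 := ge_of_tendsto' h5 h4
  rw [mul_zero] at h6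
  linarith

/-- **The law, quantitative form.** -/
theorem law {l C δ : ℝ} (hl : 0 < l) (hS : ∀ p, (S p : ℝ) ≤ C * l ^ p) {e : ℕ}
    (h : ¬ Direct e) (hδ : δ < (l ^ e)⁻¹) (n : ℕ) : ∃ p, n ≤ p ∧ (s p : ℝ) ≤ (1 - δ) * S p := by
  rcases Nat.eq_zero_or_pos e with rfl | he
  · have h1 := gap h n
    rw [add_zero] at h1
    have h2 : s n = 0 := by omega
    refine ⟨n, le_rfl, ?_⟩
    rw [h2, Nat.cast_zero]
    rw [pow_zero, inv_one] at hδ
    exact mul_nonneg (by linarith) (Nat.cast_nonneg _)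
  · obtain ⟨p, hp, h1⟩ := growth hl hS e hδ n
    refine ⟨p + e, by omega, ?_⟩
    have h2 := gap h p
    have h3 : (s (p + e) : ℝ) + S p ≤ S (p + e) := by exact_mod_cast h2
    linarith

theorem law_two {δ : ℝ} {e : ℕ} (h : ¬ Direct e) (hδ : δ < ((2 : ℝ) ^ e)⁻¹) (n : ℕ) :
    ∃ p, n ≤ p ∧ (s p : ℝ) ≤ (1 - δ) * S p := by
  refine law (C := 1) two_pos (fun p => ?_) h hδ n
  rw [one_mul]
  exact_mod_cast S_le p

theorem direct_of_tendsto (h : Tendsto (fun p => (s p : ℝ) / S p) atTop (nhds 1)) (e : ℕ) :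
    Direct e := by
  by_contra hne
  have h2 : (0 : ℝ) < ((2 : ℝ) ^ e)⁻¹ / 2 := by positivity
  have h3 := (h.eventually (lt_mem_nhds (a := 1 - ((2 : ℝ) ^ e)⁻¹ / 2) (by linarith)))
  obtain ⟨n, hn⟩ := eventually_atTop.1 h3
  obtain ⟨p, hp, h4⟩ := law_two hne (δ := ((2 : ℝ) ^ e)⁻¹ / 2) (by linarith) n
  have h5 := hn p hp
  have h6 : (0 : ℝ) < S p := by
    exact_mod_cast (lt_of_lt_of_le Nat.zero_lt_one (one_le_S _))
  rw [lt_div_iff₀ h6] at h5
  linarith

/-! ### subspaces -/

lemma U_le {U : ℕ → Submodule ℚ ℝ} (hU : ∀ j, U j ≤ Zs j) {A : Finset ℕ}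
    (hd : ∀ u : ℕ → ℝ, (∀ j ∈ A, u j ∈ U j) → ∑ j ∈ A, u j = 0 → ∀ j ∈ A, u j = 0) :
    ∑ j ∈ A, finrank ℚ (U j) ≤ sA A := by
  have hfin : ∀ j, FiniteDimensional ℚ (U j) := fun j => Submodule.finiteDimensional_of_le (hU j)
  let M : (∀ j : A, U j) →ₗ[ℚ] Sm A :=
    { toFun := fun u => ⟨∑ j : A, (u j : ℝ), Submodule.sum_mem _ fun j _ =>
        le_Sm j.2 (hU j (u j).2)⟩
      map_add' := fun u v => Subtype.ext (by
        change ∑ j : A, ((u j : ℝ) + v j) = ∑ j : A, (u j : ℝ) + ∑ j : A, (v j : ℝ)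
        exact Finset.sum_add_distrib)
      map_smul' := fun c u => Subtype.ext (by
        change ∑ j : A, c • (u j : ℝ) = c • ∑ j : A, (u j : ℝ)
        exact (Finset.smul_sum).symm) }
  have hM : Function.Injective M := by
    rw [injective_iff_map_eq_zero]
    intro u hu
    have h1 : ∑ j : A, (u j : ℝ) = 0 := congrArg Subtype.val hu
    classical
    let z : ℕ → ℝ := fun j => if h : j ∈ A then (u ⟨j, h⟩ : ℝ) else 0
    have hz : ∀ j (h : j ∈ A), z j = u ⟨j, h⟩ := fun j h => dif_pos h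
    have h2 := hd z (fun j hj => by rw [hz j hj]; exact (u ⟨j, hj⟩).2) (by
      rw [← Finset.sum_coe_sort A z, ← h1]
      exact Finset.sum_congr rfl fun j _ => hz j j.2)
    funext j
    apply Subtype.ext
    have h3 := h2 j j.2
    rw [hz j j.2] at h3
    exact h3
  have : FiniteDimensional ℚ (Sm A) := by
    rw [← map_W]
    infer_instance
  have h := LinearMap.finrank_le_finrank_of_injective hM
  rw [Module.finrank_pi_fintype, Finset.sum_coe_sort A fun j => finrank ℚ (U j)] at h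
  exact h

theorem direct_of_U {U : ℕ → Submodule ℚ ℝ} (hU : ∀ j, U j ≤ Zs j)
    (hd : ∀ (A : Finset ℕ) (u : ℕ → ℝ), (∀ j ∈ A, u j ∈ U j) → ∑ j ∈ A, u j = 0 →
      ∀ j ∈ A, u j = 0) {e : ℕ} {δ : ℝ} (hδ : δ < ((2 : ℝ) ^ e)⁻¹) {n : ℕ}
    (h : ∀ p, n ≤ p → (1 - δ) * S p ≤ ((∑ j ∈ Finset.range (p + 1), finrank ℚ (U j) : ℕ) : ℝ)) :
    Direct e := by
  by_contra hne
  obtain ⟨δ', h1, h2⟩ := exists_between hδ
  obtain ⟨p, hp, h3⟩ := law_two hne h2 n
  have h4 := h p hp
  have h5 : ((∑ j ∈ Finset.range (p + 1), finrank ℚ (U j) : ℕ) : ℝ) ≤ s p := by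
    exact_mod_cast U_le hU (hd _)
  have h6 : (0 : ℝ) < S p := by
    exact_mod_cast (lt_of_lt_of_le Nat.zero_lt_one (one_le_S _))
  have h7 : (1 - δ') * S p < (1 - δ) * S p := mul_lt_mul_of_pos_right (by linarith) h6
  linarith

lemma DirectOn.mono {F G : Finset ℕ} (h : DirectOn F) (hG : G ⊆ F) : DirectOn G := by
  classical
  intro z hz hs j hj
  have h1 := h (fun j => if j ∈ G then z j else 0) (fun j _ => by
    split_ifs with hjG
    · exact hz j hjG
    · exact Submodule.zero_mem _) (by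
    refine Eq.trans ?_ hs
    refine (Finset.sum_subset hG fun j _ hj => if_neg hj).symm.trans ?_
    exact Finset.sum_congr rfl fun j hj => if_pos hj) j (hG hj)
  simp only [if_pos hj] at h1
  exact h1

lemma directOn_of_direct (h : ∀ p, Direct p) (F : Finset ℕ) : DirectOn F := by
  refine (h (F.sup id)).mono fun j hj => ?_
  rw [Finset.mem_range, Nat.lt_succ_iff]
  exact Finset.le_sup (f := id) hj

theorem tendsto_of_direct (h : ∀ p, Direct p) :
    Tendsto (fun p => (s p : ℝ) / S p) atTop (nhds 1) := by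
  have h1 : (fun p => (s p : ℝ) / S p) = fun _ => 1 := by
    funext p
    have h6 : (S p : ℝ) ≠ 0 := by
      have := one_le_S p
      positivity
    have h2 : s p = S p := sA_eq (h p)
    rw [h2, div_self h6]
  rw [h1]
  exact tendsto_const_nhds

end Pool.Agent.J4.H88.DZ
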