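import Pool.Agent.J4.H88.DZ.Law

/-!
# Directness of the sum of the spaces of multiple zeta values: a zero-one law

Let `Z j` be the `ℚ`-span of the multiple zeta values of weight `j` (as in `S16873`; `Z 0 = ℚ`,
`Z 1 = 0`). The problem (Q1) asks whether the sum `Z 0 + … + Z p` in `ℝ` is direct for all `p`. For a
finite set `A` of weights let `sumDim A` be the sum of the dimensions of the `Z j`, `j ∈ A`, and
`dimSum A` the dimension of the sum of the `Z j`, `j ∈ A`, in `ℝ`. So `dimSum A ≤ sumDim A`, with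
equality iff this sum is direct; the difference is the number of independent relations.

Theorem (unconditional).
(1) Let `F` be a finite set of weights. If the sum of the `Z j`, `j ∈ F`, is not direct, then for every
finite set `A` of weights the elements of the `Z j`, `j ∈ A + F`, satisfy at least `sumDim A` independent
relations: `dimSum (A + F) ≤ sumDim (A + F) - sumDim A`.
(2) So directness along `F` is decided by a rough bound for one single set `A + F` of possibly very large
weights: the sum of the `Z j`, `j ∈ F`, is direct iff there is a finite set `A` with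
`dimSum (A + F) > sumDim (A + F) - sumDim A`. For example, `Z 0 + … + Z e` is direct if for one `n`
the space `Z n + … + Z (n + e)` has dimension greater than `dim Z (n + 1) + … + dim Z (n + e)`.
(3) If `Z 0 + … + Z e` is not direct, then for all `δ < 2^(-e)` there are infinitely many `p` with
`dim (Z 0 + … + Z p) ≤ (1 - δ) (dim Z 0 + … + dim Z p)`. If `dim Z 0 + … + dim Z p ≤ C l^p` for all `p`,
the same holds for all `δ < l^(-e)`. (By the theorem of Terasoma and Deligne-Goncharov one can take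
`l = 1.3248`, the plastic number; this is not used or proved here.)
(4) Zero-one law. The following are equivalent: Q1; `dim (Z 0 + … + Z p) / (dim Z 0 + … + dim Z p)` tends
to `1`; there are subspaces `U j` of `Z j` whose sum is direct with
`(dim U 0 + … + dim U p) / (dim Z 0 + … + dim Z p)` tending to `1`. So directness for almost all
elements, in the sense of the dimension, implies directness.
(5) If there are subspaces `U j` of `Z j` whose sum is direct and
`dim U 0 + … + dim U p ≥ (1 - δ) (dim Z 0 + … + dim Z p)` for all large `p`, where `δ < 2^(-e)`, then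
`Z 0 + … + Z e` is direct.

Proof. Let `R` be the external direct sum of the `Z j`, in the form of the ring of the polynomials with
coefficients `f_j ∈ Z j`; the product of the library (`Z i · Z j ⊆ Z (i + j)`) makes it a domain, and
`f ↦ f(1)` is the map to `ℝ`. The product of a nontrivial relation with weights in `F` and of the elements
of `R` with weights in `A` gives `sumDim A` independent relations with weights in `A + F`. As
`dim Z j ≤ 2^(j - 1)`, the quotient of the sums of the dimensions up to `p` and up to `p + e` cannot be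
smaller than `δ < 2^(-e)` for all large `p`.
-/

set_option autoImplicit false

namespace Pool.Agent.J4.H88.DZ.Main

open Module Filter
open scoped Pointwise

/-- The `ℚ`-span of the multiple zeta values of weight `j`. -/
noncomputable def Z (j : ℕ) : Submodule ℚ ℝ :=
  Submodule.span ℚ
    {x : ℝ | ∃ t : ℕ, ∃ k : Fin t → ℕ,
      (∀ i, 1 ≤ k i) ∧ (∀ h : 0 < t, 2 ≤ k ⟨0, h⟩) ∧ (∑ i, k i) = j ∧
      x = ∑' n : {n : Fin t → ℕ // StrictAnti n ∧ ∀ i, 1 ≤ n i},
            ∏ i, (((n.1 i : ℕ) : ℝ) ^ (k i))⁻¹}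

/-- The sum of the subspaces `U j`, `j ∈ A`, of `ℝ` is direct. -/
def IsDirect (U : ℕ → Submodule ℚ ℝ) (A : Finset ℕ) : Prop :=
  ∀ z : ℕ → ℝ, (∀ j ∈ A, z j ∈ U j) → (∑ j ∈ A, z j) = 0 → ∀ j ∈ A, z j = 0

/-- The sum of the dimensions of the `U j`, `j ∈ A`. -/
noncomputable def sumDim (U : ℕ → Submodule ℚ ℝ) (A : Finset ℕ) : ℕ := ∑ j ∈ A, finrank ℚ (U j)

/-- The dimension of the sum of the `U j`, `j ∈ A`, in `ℝ`. -/
noncomputable def dimSum (U : ℕ → Submodule ℚ ℝ) (A : Finset ℕ) : ℕ :=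
  finrank ℚ (⨆ j ∈ A, U j : Submodule ℚ ℝ)

/-- The weights `0, …, p`. -/
def upTo (p : ℕ) : Finset ℕ := Finset.range (p + 1)

/-- The problem: the sum `Z 0 + … + Z p` is direct for all `p`. -/
def Q1 : Prop := ∀ p : ℕ, IsDirect Z (upTo p)

/-- (1), (2) Relations along `A + F`. -/
def OneSet : Prop :=
  ∀ F : Finset ℕ,
    (¬ IsDirect Z F → ∀ A : Finset ℕ, dimSum Z (A + F) + sumDim Z A ≤ sumDim Z (A + F)) ∧
    (IsDirect Z F ↔ ∃ A : Finset ℕ, sumDim Z (A + F) < dimSum Z (A + F) + sumDim Z A) ∧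
    (∀ e n : ℕ, ∑ j ∈ Finset.Icc (n + 1) (n + e), finrank ℚ (Z j) <
      dimSum Z (Finset.Icc n (n + e)) → IsDirect Z (upTo e))

/-- (3) The cost of a relation. -/
def Cost : Prop :=
  ∀ e : ℕ, ¬ IsDirect Z (upTo e) →
    (∀ δ : ℝ, δ < ((2 : ℝ) ^ e)⁻¹ → ∃ᶠ p in atTop,
      (dimSum Z (upTo p) : ℝ) ≤ (1 - δ) * sumDim Z (upTo p)) ∧
    (∀ l C : ℝ, 0 < l → (∀ p, (sumDim Z (upTo p) : ℝ) ≤ C * l ^ p) → ∀ δ : ℝ, δ < (l ^ e)⁻¹ →
      ∃ᶠ p in atTop, (dimSum Z (upTo p) : ℝ) ≤ (1 - δ) * sumDim Z (upTo p))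

/-- (4) The zero-one law. -/
def ZeroOneLaw : Prop :=
  List.TFAE [Q1,
    Tendsto (fun p => (dimSum Z (upTo p) : ℝ) / sumDim Z (upTo p)) atTop (nhds 1),
    ∃ U : ℕ → Submodule ℚ ℝ, (∀ j, U j ≤ Z j) ∧ (∀ A, IsDirect U A) ∧
      Tendsto (fun p => (sumDim U (upTo p) : ℝ) / sumDim Z (upTo p)) atTop (nhds 1)]

/-- (5) Directness for a part of the elements. -/
def Part : Prop :=
  ∀ (U : ℕ → Submodule ℚ ℝ), (∀ j, U j ≤ Z j) → (∀ A, IsDirect U A) →
    ∀ (e : ℕ) (δ : ℝ), δ < ((2 : ℝ) ^ e)⁻¹ →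
      (∀ᶠ p in atTop, (1 - δ) * sumDim Z (upTo p) ≤ (sumDim U (upTo p) : ℝ)) → IsDirect Z (upTo e)

theorem main : OneSet ∧ Cost ∧ ZeroOneLaw ∧ Part := by
  have hpart : Part := by
    intro U hU hd e δ hδ h
    obtain ⟨n, hn⟩ := eventually_atTop.1 h
    exact Pool.Agent.J4.H88.DZ.direct_of_U hU hd hδ hn
  refine ⟨fun F => ⟨fun h A => ?_, Pool.Agent.J4.H88.DZ.directOn_iff F, fun e n h => ?_⟩,
    fun e he => ⟨fun δ hδ => ?_, fun l C hl hS δ hδ => ?_⟩, ?_, hpart⟩
  · refine Pool.Agent.J4.H88.DZ.gapF h fun i hi a ha => ?_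
    rw [add_comm i a]
    exact Finset.add_mem_add ha hi
  · by_contra hne
    have h1 := Pool.Agent.J4.H88.DZ.gapF (F := upTo e) hne (A := {n}) (B := Finset.Icc n (n + e))
      fun i hi a ha => by
        unfold upTo at hi
        rw [Finset.mem_range] at hi
        rw [Finset.mem_singleton] at ha
        rw [Finset.mem_Icc]
        omega
    have h2 : Pool.Agent.J4.H88.DZ.SA (Finset.Icc n (n + e)) =
        Pool.Agent.J4.H88.DZ.SA {n} + ∑ j ∈ Finset.Icc (n + 1) (n + e), finrank ℚ (Z j) := by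
      unfold Pool.Agent.J4.H88.DZ.SA
      rw [Finset.sum_singleton, ← Finset.insert_Icc_succ_left_eq_Icc (show n ≤ n + e by omega),
        Finset.sum_insert]
      · rfl
      · simp
    change Pool.Agent.J4.H88.DZ.sA _ + _ ≤ _ at h1
    change _ < Pool.Agent.J4.H88.DZ.sA _ at h
    omega
  · rw [frequently_atTop]
    intro n
    obtain ⟨p, hp, h⟩ := Pool.Agent.J4.H88.DZ.law_two he hδ n
    exact ⟨p, hp, h⟩
  · rw [frequently_atTop]
    intro n
    obtain ⟨p, hp, h⟩ := Pool.Agent.J4.H88.DZ.law hl hS he hδ n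
    exact ⟨p, hp, h⟩
  · unfold ZeroOneLaw
    tfae_have 1 → 2 := fun h => Pool.Agent.J4.H88.DZ.tendsto_of_direct h
    tfae_have 2 → 1 := fun h p => Pool.Agent.J4.H88.DZ.direct_of_tendsto h p
    tfae_have 1 → 3 := fun h => by
      refine ⟨Z, fun _ => le_rfl, Pool.Agent.J4.H88.DZ.directOn_of_direct h, ?_⟩
      have h1 : (fun p => (sumDim Z (upTo p) : ℝ) / sumDim Z (upTo p)) = fun _ => 1 := by
        funext p
        have h2 : 1 ≤ sumDim Z (upTo p) := Pool.Agent.J4.H88.DZ.one_le_S p
        have h3 : (sumDim Z (upTo p) : ℝ) ≠ 0 := by positivity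
        exact div_self h3
      rw [h1]
      exact tendsto_const_nhds
    tfae_have 3 → 1 := fun ⟨U, hU, hd, h⟩ e => by
      have h0 : (0 : ℝ) < ((2 : ℝ) ^ e)⁻¹ := by positivity
      refine hpart U hU hd e (((2 : ℝ) ^ e)⁻¹ / 2) (by linarith) ?_
      have h3 := h.eventually (lt_mem_nhds (a := 1 - ((2 : ℝ) ^ e)⁻¹ / 2) (by linarith))
      filter_upwards [h3] with p hp
      have h2 : 1 ≤ sumDim Z (upTo p) := Pool.Agent.J4.H88.DZ.one_le_S p
      have h4 : (0 : ℝ) < sumDim Z (upTo p) := by positivity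
      exact ((lt_div_iff₀ h4).1 hp).le
    tfae_finish

end Pool.Agent.J4.H88.DZ.Main
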